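import Pool.Agent.Helper57.SJ.Stmts

/-! # SJ: the row AP -/

set_option autoImplicit false

namespace Pool.Agent.Helper39.SJ

open MeasureTheory Set Filter Topology Pool.Agent.Helper57.SJ
open Pool.Agent.Helper57.QZ (Pr tor circ aa Zy Wy Sy Vy Ky pt lin Good zA Pz)

theorem st_AP (h1 : Pool.Agent.Helper57.QZ.ST_GD2) (h2 : ST_GW) (h3 : ST_TLT) : ST_AP := by
  intro η hη
  have hη0 := hη.1
  have hε : (1 / 4 : ℝ) ∈ Ioo (0:ℝ) (1 / 2) := ⟨by norm_num, by norm_num⟩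
  obtain ⟨C, A1, hC, hA1, HG⟩ := h1 (1 / 4) hε
  obtain ⟨A2, hA2, HT⟩ := h3 (1 / 4) hε C (η / 2) hC (by linarith)
  obtain ⟨c1, hc1, HW⟩ := h2 (1 / 4) hε
  obtain ⟨A, hA⟩ : ∃ A : ℝ, A = max A1 A2 := ⟨_, rfl⟩
  have hAA1 : A1 ≤ A := by rw [hA]; exact le_max_left _ _
  have hAA2 : A2 ≤ A := by rw [hA]; exact le_max_right _ _
  obtain ⟨c2, hc2, HT'⟩ := HT A hAA2
  obtain ⟨c, hc⟩ : ∃ c : ℝ, c = min c1 c2 := ⟨_, rfl⟩
  have hcc1 : c ≤ c1 := by rw [hc]; exact min_le_left _ _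
  have hcc2 : c ≤ c2 := by rw [hc]; exact min_le_right _ _
  have hc0 : 0 < c := by rw [hc]; exact lt_min hc1.1 hc2.1
  refine ⟨A, le_trans hA1 hAA1, c, ⟨hc0, lt_of_le_of_lt hcc1 hc1.2⟩, ?_⟩
  intro κ hκ
  obtain ⟨T1, hT1, HG'⟩ := HG A hAA1 (η / 2) (by linarith)
  obtain ⟨T2, hT2, HW'⟩ := HW (κ / 3) (by linarith)
  obtain ⟨T3, hT3, HT''⟩ := HT' (κ / 3) (by linarith)
  refine ⟨max T1 (max T2 T3), le_trans hT1 (le_max_left _ _), ?_⟩
  intro T hT H hH hHc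
  have hTT1 : T1 ≤ T := le_trans (le_max_left _ _) hT
  have hTT2 : T2 ≤ T := le_trans (le_trans (le_max_left _ _) (le_max_right _ _)) hT
  have hTT3 : T3 ≤ T := le_trans (le_trans (le_max_right _ _) (le_max_right _ _)) hT
  have hT1' : (1:ℝ) ≤ T := by linarith
  have hH1 : H ≤ T ^ c1 := hHc.trans (Real.rpow_le_rpow_of_exponent_le hT1' hcc1)
  have hH2 : H ≤ T ^ c2 := hHc.trans (Real.rpow_le_rpow_of_exponent_le hT1' hcc2)
  obtain ⟨a, b, hab, HG3⟩ := HG' T hTT1 1 ⟨by norm_num, le_rfl⟩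
  obtain ⟨E1, hE1, hE1v, HE1⟩ := HW' T hTT2 H hH hH1
  obtain ⟨E2, hE2, hE2v, HE2⟩ := HT'' T hTT3 H hH hH2 a (fun p hp => (hab p hp).1)
  obtain ⟨E3, hE3, hE3v, HE3⟩ := HT'' T hTT3 H hH hH2 b (fun p hp => (hab p hp).2)
  refine ⟨E1 ∪ E2 ∪ E3, union_subset (union_subset hE1 hE2) hE3, ?_, ?_⟩
  · have m1 := measureReal_union_le (μ := (volume : Measure ℝ)) (E1 ∪ E2) E3
    have m2 := measureReal_union_le (μ := (volume : Measure ℝ)) E1 E2
    have m3 : κ / 3 * T + κ / 3 * T + κ / 3 * T = κ * T := by ring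
    linarith
  · intro u hu hnu t ht
    have n1 : u ∉ E1 := fun h => hnu (Or.inl (Or.inl h))
    have n2 : u ∉ E2 := fun h => hnu (Or.inl (Or.inr h))
    have n3 : u ∉ E3 := fun h => hnu (Or.inr h)
    obtain ⟨w1, w2, w3⟩ := HE1 u hu n1
    have ht' : t ∈ Icc T (2 * T) := ⟨by linarith [ht.1], by linarith [ht.2]⟩
    obtain ⟨g1, g2, g3⟩ := HG3 t ht' (w3 t ht)
    have s2 := HE2 u hu n2 t ht
    have s3 := HE3 u hu n3 t ht
    refine ⟨g1, ?_, ?_⟩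
    · have s4 := (Complex.abs_re_le_norm (∑ p ∈ Pz (zA A T),
        b p * Complex.exp (-((t * Real.log p : ℝ) * Complex.I)))).trans s3
      have r1 := abs_le.1 s4
      have r2 := abs_le.1 g3
      rw [abs_le]
      exact ⟨by linarith [r1.1, r2.1], by linarith [r1.2, r2.2]⟩
    · have e1 : deriv riemannZeta (pt 1 t) / riemannZeta (pt 1 t) -
          Wy (zA A T) 1 (lin (zA A T) t) =
          (deriv riemannZeta (pt 1 t) / riemannZeta (pt 1 t) -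
            Wy (zA A T) 1 (lin (zA A T) t) - ∑ p ∈ Pz (zA A T),
              a p * Complex.exp (-((t * Real.log p : ℝ) * Complex.I))) +
          ∑ p ∈ Pz (zA A T), a p * Complex.exp (-((t * Real.log p : ℝ) * Complex.I)) := by
        ring
      rw [e1]
      refine (norm_add_le _ _).trans ?_
      linarith

end Pool.Agent.Helper39.SJ
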